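import Pool.Agent.TH54.BExt
import Pool.Agent.TH54.BU.Iter
import Pool.Agent.TH54.BU.ExistsExt

/-!
# Hereditarily minimal locally compact groups with centre `ℤ_p`

Existence: `M = (A × ℤ_p) / ⟨(z, -1)⟩`, where `A` is a central extension, by an infinite cyclic group
`⟨z⟩`, of the free Burnside group of rank two and large prime exponent `p`, in which the `p`-th
powers of the elements outside `⟨z⟩` are powers of `z` with exponent prime to `p`.
Hereditary minimality holds for all torsion-free groups with open centre `ℤ_p` and central quotient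
of finite exponent; see `Pool/Agent/TH54/BExt.lean` and `Pool/Agent/TH54/HM.lean`.
-/

set_option autoImplicit false

namespace Pool.Agent.Results.MP_adec7c_al.HereditarilyMinimalExtensions

universe u

/-- (1) For every sufficiently large prime `p` there is a torsion-free Hausdorff topological group
`M` whose centre is open and topologically isomorphic to `ℤ_p`, with `M / Z(M)` infinite of
exponent `p`. (2) For every prime `p`, every torsion-free Hausdorff topological group `M` whose
centre is open and topologically isomorphic to `ℤ_p`, with `M / Z(M)` infinite of finite exponent,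
is hereditarily minimal, locally compact, neither discrete nor compact, and its centre is neither
trivial nor all of `M`. -/
theorem result :
    (∃ p0 : ℕ, ∀ (p : ℕ) [Fact p.Prime], p0 ≤ p →
      ∃ (M : Type) (_ : Group M) (_ : TopologicalSpace M), IsTopologicalGroup M ∧ T2Space M ∧
        (∀ x : M, IsOfFinOrder x → x = 1) ∧ IsOpen (Subgroup.center M : Set M) ∧
        Nonempty (Multiplicative ℤ_[p] ≃ₜ* Subgroup.center M) ∧
        (∀ x : M ⧸ Subgroup.center M, x ^ p = 1) ∧ Infinite (M ⧸ Subgroup.center M)) ∧
    (∀ (p : ℕ) [Fact p.Prime] (M : Type u) [Group M] [TopologicalSpace M]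
      [IsTopologicalGroup M] [T2Space M],
      (∀ x : M, IsOfFinOrder x → x = 1) →
      IsOpen (Subgroup.center M : Set M) →
      Nonempty (Multiplicative ℤ_[p] ≃ₜ* Subgroup.center M) →
      (∃ n : ℕ, 0 < n ∧ ∀ x : M ⧸ Subgroup.center M, x ^ n = 1) →
      Infinite (M ⧸ Subgroup.center M) →
      (∀ (H : Subgroup M) (σ : TopologicalSpace H), @IsTopologicalGroup H σ _ → @T2Space H σ →
        (instTopologicalSpaceSubtype : TopologicalSpace H) ≤ σ →
        σ = instTopologicalSpaceSubtype) ∧
      LocallyCompactSpace M ∧ ¬ DiscreteTopology M ∧ ¬ CompactSpace M ∧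
      Subgroup.center M ≠ ⊥ ∧ Subgroup.center M ≠ ⊤) := by
  refine ⟨?_, ?_⟩
  · obtain ⟨p0, h⟩ := Pool.Agent.TH54.BU.burnside
    exact ⟨p0, fun p hp hle => Pool.Agent.TH54.BU.exists_ext (h p hp.out hle)⟩
  · intro p _ M _ _ _ _ h1 h2 h3 h4 h5
    exact Pool.Agent.TH54.bounded_exponent_extensions p M h1 h2 h3 h4 h5

end Pool.Agent.Results.MP_adec7c_al.HereditarilyMinimalExtensions
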